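import Pool.Agent.FTU.Stmts

/-! # FTU, row DTR -/

set_option autoImplicit false

open MeasureTheory Complex ProbabilityTheory

namespace Pool.Agent.FTU.H72

open Pool.Agent.Helper49_Pauli
open Pool.Agent.MBX

theorem dtr_alg0 (E G c X Y a et dzf dbf f u dtu eps T0 T1 T2 R0 R1 R2 p0 p1 p2 : ℂ) (ha : et * a = 1) :
    ((-I * (E * G * (c * ((dzf + dbf) * a ^ 2 - X * a ^ 4 / 2 * f) + p0 * f)) +
        (-(a ^ 4 / 2) * Y + T0 + R0) * (E * (c * G) * f)) +
      -I * (-I * (E * G * (c * (I * (dzf - dbf) * a ^ 2 - Y * a ^ 4 / 2 * f) + p1 * f)) +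
        (a ^ 4 / 2 * X + T1 + R1) * (E * (c * G) * f)) +
      (-I * (E * G * (c * (dtu - I * (a + eps) * u) + p2 * u)) +
        (a ^ 5 * (X ^ 2 + Y ^ 2) / 2 + T2 + R2) * (E * (c * G) * u))) =
    E * G * (c * a ^ 2 * (-(2 * I) * dzf + et * (1 / 2 * ((X + I * Y) * a ^ 2) * ((X - I * Y) * a ^ 2) - 1) * u +
        et ^ 2 * (-I * dtu - eps * u + T2 * u + (T0 - I * T1) * f)) +
      c * (R0 * f - I * (R1 * f) + R2 * u) +
      (-I * p0 * f + -I * p1 * (-I * f) + -I * p2 * u)) := by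
  have h1 : a ^ 2 * et = a := by linear_combination a * ha
  have h2 : a ^ 2 * et ^ 2 = 1 := by linear_combination (et * a + 1) * ha
  have h3 : (X + I * Y) * (X - I * Y) = X ^ 2 + Y ^ 2 := by linear_combination -(Y ^ 2) * I_sq
  have h4 : E * G * (c * a ^ 2 * (-(2 * I) * dzf + et * (1 / 2 * ((X + I * Y) * a ^ 2) * ((X - I * Y) * a ^ 2) - 1) * u +
        et ^ 2 * (-I * dtu - eps * u + T2 * u + (T0 - I * T1) * f)) +
      c * (R0 * f - I * (R1 * f) + R2 * u) +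
      (-I * p0 * f + -I * p1 * (-I * f) + -I * p2 * u)) =
      E * G * (c * (-(2 * I) * dzf * a ^ 2 + (a ^ 2 * et) * (1 / 2 * ((X + I * Y) * (X - I * Y)) * a ^ 4 - 1) * u +
        (a ^ 2 * et ^ 2) * (-I * dtu - eps * u + T2 * u + (T0 - I * T1) * f)) +
      c * (R0 * f - I * (R1 * f) + R2 * u) +
      (-I * p0 * f + I ^ 2 * p1 * f + -I * p2 * u)) := by ring
  rw [h4, h1, h2, h3]
  linear_combination (E * G * (c * (I * (dzf - dbf) * a ^ 2 - Y * a ^ 4 / 2 * f) ) +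
    E * G * (c * (a + eps) * u)) * I_sq

theorem dtr_alg1 (E G c X Y a et dzu dbu f u dtf eps T0 T1 T2 R0 R1 R2 p0 p1 p2 : ℂ) (ha : et * a = 1) :
    ((-I * (E * G * (c * ((dzu + dbu) * a ^ 2 - X * a ^ 4 / 2 * u) + p0 * u)) +
        (-(a ^ 4 / 2) * Y + T0 + R0) * (E * (c * G) * u)) +
      I * (-I * (E * G * (c * (I * (dzu - dbu) * a ^ 2 - Y * a ^ 4 / 2 * u) + p1 * u)) +
        (a ^ 4 / 2 * X + T1 + R1) * (E * (c * G) * u)) +
      -(-I * (E * G * (c * (dtf - I * (a + eps) * f) + p2 * f)) +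
        (a ^ 5 * (X ^ 2 + Y ^ 2) / 2 + T2 + R2) * (E * (c * G) * f))) =
    E * G * (c * a ^ 2 * (I * (((X + I * Y) * a ^ 2) * u - 2 * dbu) -
        et * (1 / 2 * ((X + I * Y) * a ^ 2) * ((X - I * Y) * a ^ 2) - 1) * f -
        et ^ 2 * (-I * dtf - eps * f + T2 * f) + et ^ 2 * (T0 + I * T1) * u) +
      c * (R0 * u + I * (R1 * u) - R2 * f) +
      (-I * p0 * u + -I * p1 * (I * u) + -I * p2 * (-f))) := by
  have h1 : a ^ 2 * et = a := by linear_combination a * ha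
  have h2 : a ^ 2 * et ^ 2 = 1 := by linear_combination (et * a + 1) * ha
  have h3 : (X + I * Y) * (X - I * Y) = X ^ 2 + Y ^ 2 := by linear_combination -(Y ^ 2) * I_sq
  have h4 : E * G * (c * a ^ 2 * (I * (((X + I * Y) * a ^ 2) * u - 2 * dbu) -
        et * (1 / 2 * ((X + I * Y) * a ^ 2) * ((X - I * Y) * a ^ 2) - 1) * f -
        et ^ 2 * (-I * dtf - eps * f + T2 * f) + et ^ 2 * (T0 + I * T1) * u) +
      c * (R0 * u + I * (R1 * u) - R2 * f) +
      (-I * p0 * u + -I * p1 * (I * u) + -I * p2 * (-f))) =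
      E * G * (c * (I * (((X + I * Y) * a ^ 4) * u - 2 * dbu * a ^ 2) -
        (a ^ 2 * et) * (1 / 2 * ((X + I * Y) * (X - I * Y)) * a ^ 4 - 1) * f -
        (a ^ 2 * et ^ 2) * (-I * dtf - eps * f + T2 * f) + (a ^ 2 * et ^ 2) * (T0 + I * T1) * u) +
      c * (R0 * u + I * (R1 * u) - R2 * f) +
      (-I * p0 * u + -(I ^ 2) * p1 * u + I * p2 * f)) := by ring
  rw [h4, h1, h2, h3]
  linear_combination (-(E * G * (c * (I * (dzu - dbu) * a ^ 2 - Y * a ^ 4 / 2 * u))) -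
    E * G * (c * Y * a ^ 4 * u) - E * G * (c * (a + eps) * f)) * I_sq

/-- the transversal Taylor polynomial with coefficients `J` -/
noncomputable def tay (M : ℕ) (x : X3) (J : ℕ → ℕ → ℝ) : ℝ :=
  ∑ p ∈ Finset.range M, ∑ q ∈ Finset.range M,
    if p + q < M then x 0 ^ p * x 1 ^ q / ((p.factorial : ℝ) * q.factorial) * J p q else 0

theorem tay_sub (M : ℕ) (x : X3) (J J' : ℕ → ℕ → ℝ) :
    tay M x (fun p q => J p q - J' p q) = tay M x J - tay M x J' := by
  unfold tay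
  rw [← Finset.sum_sub_distrib]
  refine Finset.sum_congr rfl fun p _ => ?_
  rw [← Finset.sum_sub_distrib]
  refine Finset.sum_congr rfl fun q _ => ?_
  split_ifs
  · ring
  · simp

theorem tay_sum {ι : Type} [Fintype ι] (M : ℕ) (x : X3) (y : ι → ℝ) (J : ι → ℕ → ℕ → ℝ) :
    tay M x (fun p q => ∑ i, y i * J i p q) = ∑ i, y i * tay M x (J i) := by
  unfold tay
  simp_rw [Finset.mul_sum]
  symm
  rw [Finset.sum_comm]
  refine Finset.sum_congr rfl fun p _ => ?_
  rw [Finset.sum_comm]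
  refine Finset.sum_congr rfl fun q _ => ?_
  split_ifs
  · refine Finset.sum_congr rfl fun i _ => ?_
    ring
  · simp

theorem tay_idl0 (M : ℕ) (hM : 3 ≤ M) (x : X3) (et : ℝ) :
    tay M x (fun p q => idl et 0 p q 0) = -((et ^ 4)⁻¹ / 2) * x 1 := by
  unfold tay
  rw [Finset.sum_eq_single 0, Finset.sum_eq_single 1]
  · have h : 0 + 1 < M := by omega
    simp [idl, h]
    ring
  · intro q _ hq
    simp [idl, hq]
  · intro h
    exact absurd (Finset.mem_range.2 (by omega)) h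
  · intro p _ hp
    refine Finset.sum_eq_zero fun q _ => ?_
    simp [idl, hp]
  · intro h
    exact absurd (Finset.mem_range.2 (by omega)) h

theorem tay_idl1 (M : ℕ) (hM : 3 ≤ M) (x : X3) (et : ℝ) :
    tay M x (fun p q => idl et 1 p q 0) = (et ^ 4)⁻¹ / 2 * x 0 := by
  unfold tay
  rw [Finset.sum_eq_single 1, Finset.sum_eq_single 0]
  · have h : 1 + 0 < M := by omega
    have h' : 1 < M := by omega
    simp [idl, h']
    ring
  · intro q _ hq
    simp [idl, hq]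
  · intro h
    exact absurd (Finset.mem_range.2 (by omega)) h
  · intro p _ hp
    refine Finset.sum_eq_zero fun q _ => ?_
    simp [idl, hp]
  · intro h
    exact absurd (Finset.mem_range.2 (by omega)) h

theorem tay_idl2 (M : ℕ) (hM : 3 ≤ M) (x : X3) (et : ℝ) :
    tay M x (fun p q => idl et 2 p q 0) = (et ^ 5)⁻¹ * (x 0 ^ 2 + x 1 ^ 2) / 2 := by
  unfold tay
  have e : ∀ p ∈ Finset.range M, (∑ q ∈ Finset.range M,
      if p + q < M then x 0 ^ p * x 1 ^ q / ((p.factorial : ℝ) * q.factorial) * idl et 2 p q 0 else 0) =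
      (if p = 2 then (et ^ 5)⁻¹ * x 0 ^ 2 / 2 else 0) + (if p = 0 then (et ^ 5)⁻¹ * x 1 ^ 2 / 2 else 0) := by
    intro p _
    by_cases h2 : p = 2
    · subst h2
      rw [Finset.sum_eq_single 0]
      · have h' : 2 < M := by omega
        simp [idl, h']
        ring
      · intro q _ hq
        simp [idl, hq]
      · intro h
        exact absurd (Finset.mem_range.2 (by omega)) h
    · by_cases h0 : p = 0
      · subst h0
        rw [Finset.sum_eq_single 2]
        · have h : 0 + 2 < M := by omega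
          have h' : 2 < M := by omega
          simp [idl, h']
          ring
        · intro q _ hq
          simp [idl, hq]
        · intro h
          exact absurd (Finset.mem_range.2 (by omega)) h
      · rw [Finset.sum_eq_zero]
        · simp [h2, h0]
        · intro q _
          simp [idl, h2, h0]
  rw [Finset.sum_congr rfl e, Finset.sum_add_distrib, Finset.sum_ite_eq', Finset.sum_ite_eq']
  have h2 : 2 ∈ Finset.range M := Finset.mem_range.2 (by omega)
  have h0 : 0 ∈ Finset.range M := Finset.mem_range.2 (by omega)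
  simp only [h2, h0, if_true]
  ring

theorem fld_split {ι : Type} [Fintype ι] (S : Sys ι) (et : ℝ) (M : ℕ) (y : ι → ℝ) (x : X3) (c : Fin 3) :
    S.fld y x c = tay M x (fun p q => idl et c p q 0) +
      tay M x (fun p q => S.jt et y (x 2) c p q 0) + ∑ i, y i * S.rm M i x c := by
  have h1 : tay M x (fun p q => S.jt et y (x 2) c p q 0) =
      (∑ i, y i * tay M x (fun p q => S.jm i c p q 0 (x 2))) - tay M x (fun p q => idl et c p q 0) := by
    rw [← tay_sum, ← tay_sub]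
    rfl
  have h2 : ∑ i, y i * S.rm M i x c = S.fld y x c -
      ∑ i, y i * tay M x (fun p q => S.jm i c p q 0 (x 2)) := by
    rw [Sys.fld, ← Finset.sum_sub_distrib]
    refine Finset.sum_congr rfl fun i _ => ?_
    rw [Sys.rm, tay]
    ring
  rw [h1, h2]
  ring

theorem dtr (hEVR : EvrStmt) (hDTD : DtdStmt) : DtrStmt := by
  intro ι _ _ S et M eps u f ch y x het hM heps hcj hch
  set E : ℂ := cexp (-(I * (S.Th et eps y (x 2) : ℂ))) with hE
  set G : ℂ := ((gs et x : ℝ) : ℂ) with hG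
  set cc : ℂ := (ch x : ℂ) with hcc
  set a : ℂ := (et : ℂ)⁻¹ with ha'
  have hetC : (et : ℂ) ≠ 0 := by exact_mod_cast het
  have ha : (et : ℂ) * a = 1 := mul_inv_cancel₀ hetC
  obtain ⟨-, fu0, fu1, fu2⟩ := hDTD ι S et eps u ch y x het heps hcj hch _ rfl
  obtain ⟨-, ff0, ff1, ff2⟩ := hDTD ι S et eps f ch y x het heps hcj hch _ rfl
  have tu : (fun x => S.tri et eps u f ch y x 0) = (fun x => cexp (-(I * (S.Th et eps y (x 2) : ℂ))) *
      ((ch x * gs et x : ℝ) : ℂ) * S.pol et u y x) := by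
    funext x
    simp [Sys.tri]
  have tf : (fun x => S.tri et eps u f ch y x 1) = (fun x => cexp (-(I * (S.Th et eps y (x 2) : ℂ))) *
      ((ch x * gs et x : ℝ) : ℂ) * S.pol et f y x) := by
    funext x
    simp [Sys.tri]
  -- values
  have tu' : S.tri et eps u f ch y x 0 = E * (cc * G) * S.pol et u y x := by
    simp [Sys.tri, hE, hG, hcc]
  have tf' : S.tri et eps u f ch y x 1 = E * (cc * G) * S.pol et f y x := by
    simp [Sys.tri, hE, hG, hcc]
  have hadd : ∀ P Q : RR, S.pol et (P + Q) y x = S.pol et P y x + S.pol et Q y x := fun P Q => by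
    simp [Sys.pol, ev]
  have hsub : ∀ P Q : RR, S.pol et (P - Q) y x = S.pol et P y x - S.pol et Q y x := fun P Q => by
    simp [Sys.pol, ev]
  have hmul : ∀ P Q : RR, S.pol et (P * Q) y x = S.pol et P y x * S.pol et Q y x := fun P Q => by
    simp [Sys.pol, ev]
  have hpow : ∀ (P : RR) (n : ℕ), S.pol et (P ^ n) y x = S.pol et P y x ^ n := fun P n => by
    simp [Sys.pol, ev]
  have hC : ∀ b : ℂ, S.pol et (MvPolynomial.C b) y x = b := fun b => by
    simp [Sys.pol, ev]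
  have hone : S.pol et 1 y x = 1 := by simp [Sys.pol, ev]
  have htwo : S.pol et 2 y x = 2 := by
    have h2 : (2 : RR) = MvPolynomial.C 2 := (map_ofNat MvPolynomial.C 2).symm
    rw [h2, hC]
  have hxe : S.pol et xe y x = et := by simp [Sys.pol, ev, xe, pt]
  have hxz : S.pol et xz y x = ((x 0 : ℂ) + I * (x 1 : ℂ)) * a ^ 2 := by
    simp only [Sys.pol, ev, xz, pt, MvPolynomial.eval_X, zt, ha']
    rw [div_eq_mul_inv, inv_pow]
  have hxb : S.pol et xb y x = ((x 0 : ℂ) - I * (x 1 : ℂ)) * a ^ 2 := by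
    simp only [Sys.pol, ev, xb, pt, MvPolynomial.eval_X, zt, ha']
    rw [div_eq_mul_inv, map_mul, map_add, map_mul, conj_I, conj_ofReal, conj_ofReal, map_inv₀, map_pow,
      conj_ofReal, inv_pow]
    ring
  have hTT : ∀ c : Fin 3, S.pol et (TT M c) y x =
      ((tay M x (fun p q => S.jt et y (x 2) c p q 0) : ℝ) : ℂ) := fun c =>
    hEVR.2.2.2 M c et (S.jt et y (x 2)) x het
  have hw0 : S.pol et w0 y x = 1 / 2 * (((x 0 : ℂ) + I * (x 1 : ℂ)) * a ^ 2) *
      (((x 0 : ℂ) - I * (x 1 : ℂ)) * a ^ 2) - 1 := by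
    rw [w0, hsub, hmul, hmul, hC, hxz, hxb, hone]
  have hD1 : S.pol et (D1 M eps u f) y x = -(2 * I) * S.pol et (dz f) y x +
      et * (1 / 2 * (((x 0 : ℂ) + I * (x 1 : ℂ)) * a ^ 2) * (((x 0 : ℂ) - I * (x 1 : ℂ)) * a ^ 2) - 1) *
        S.pol et u y x +
      (et : ℂ) ^ 2 * (-I * S.pol et (dt u) y x - S.pol et eps y x * S.pol et u y x +
        ((tay M x (fun p q => S.jt et y (x 2) 2 p q 0) : ℝ) : ℂ) * S.pol et u y x +
        (((tay M x (fun p q => S.jt et y (x 2) 0 p q 0) : ℝ) : ℂ) -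
          I * ((tay M x (fun p q => S.jt et y (x 2) 1 p q 0) : ℝ) : ℂ)) * S.pol et f y x) := by
    simp only [D1, hadd, hsub, hmul, hpow, hC, hxe, hw0, hTT]
  have hD2 : S.pol et (D2 M eps u f) y x = I * ((((x 0 : ℂ) + I * (x 1 : ℂ)) * a ^ 2) * S.pol et u y x -
        2 * S.pol et (db u) y x) -
      et * (1 / 2 * (((x 0 : ℂ) + I * (x 1 : ℂ)) * a ^ 2) * (((x 0 : ℂ) - I * (x 1 : ℂ)) * a ^ 2) - 1) *
        S.pol et f y x -
      (et : ℂ) ^ 2 * (-I * S.pol et (dt f) y x - S.pol et eps y x * S.pol et f y x +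
        ((tay M x (fun p q => S.jt et y (x 2) 2 p q 0) : ℝ) : ℂ) * S.pol et f y x) +
      (et : ℂ) ^ 2 * (((tay M x (fun p q => S.jt et y (x 2) 0 p q 0) : ℝ) : ℂ) +
          I * ((tay M x (fun p q => S.jt et y (x 2) 1 p q 0) : ℝ) : ℂ)) * S.pol et u y x := by
    simp only [D2, hadd, hsub, hmul, hpow, hC, hxe, hw0, hTT, hxz, htwo]
  have hV : ∀ c : Fin 3, ((S.fld y x c : ℝ) : ℂ) = ((tay M x (fun p q => idl et c p q 0) : ℝ) : ℂ) +
      ((tay M x (fun p q => S.jt et y (x 2) c p q 0) : ℝ) : ℂ) + ((∑ i, y i * S.rm M i x c : ℝ) : ℂ) := by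
    intro c
    rw [fld_split S et M y x c]
    push_cast
    ring
  have hV0 := hV 0
  have hV1 := hV 1
  have hV2 := hV 2
  rw [tay_idl0 M hM] at hV0
  rw [tay_idl1 M hM] at hV1
  rw [tay_idl2 M hM] at hV2
  set T0 : ℂ := ((tay M x (fun p q => S.jt et y (x 2) 0 p q 0) : ℝ) : ℂ) with hT0
  set T1 : ℂ := ((tay M x (fun p q => S.jt et y (x 2) 1 p q 0) : ℝ) : ℂ) with hT1
  set T2 : ℂ := ((tay M x (fun p q => S.jt et y (x 2) 2 p q 0) : ℝ) : ℂ) with hT2
  set R0 : ℂ := ((∑ i, y i * S.rm M i x 0 : ℝ) : ℂ) with hR0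
  set R1 : ℂ := ((∑ i, y i * S.rm M i x 1 : ℝ) : ℂ) with hR1
  set R2 : ℂ := ((∑ i, y i * S.rm M i x 2 : ℝ) : ℂ) with hR2
  have k0 : ((-((et ^ 4)⁻¹ / 2) * x 1 : ℝ) : ℂ) = -(a ^ 4 / 2) * (x 1 : ℂ) := by
    push_cast
    rw [ha', inv_pow]
  have k1 : (((et ^ 4)⁻¹ / 2 * x 0 : ℝ) : ℂ) = a ^ 4 / 2 * (x 0 : ℂ) := by
    push_cast
    rw [ha', inv_pow]
  have k2 : (((et ^ 5)⁻¹ * (x 0 ^ 2 + x 1 ^ 2) / 2 : ℝ) : ℂ) = a ^ 5 * ((x 0 : ℂ) ^ 2 + (x 1 : ℂ) ^ 2) / 2 := by
    push_cast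
    rw [ha', inv_pow]
  rw [k0] at hV0
  rw [k1] at hV1
  rw [k2] at hV2
  have hx4 : ∀ t : ℝ, ((t / (2 * et ^ 4) : ℝ) : ℂ) = (t : ℂ) * a ^ 4 / 2 := by
    intro t
    push_cast
    rw [ha', inv_pow, div_eq_mul_inv, mul_inv]
    ring
  have hdiv : ∀ w : ℂ, w / (et : ℂ) ^ 2 = w * a ^ 2 := by
    intro w
    rw [ha', inv_pow, div_eq_mul_inv]
  have h1et : ((1 / et : ℝ) : ℂ) = a := by
    push_cast
    rw [ha', one_div]
  rw [hadd, hdiv, hx4] at fu0 ff0
  rw [hsub, hdiv, hx4] at fu1 ff1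
  rw [h1et] at fu2 ff2
  have hc2 : ((ch x / et ^ 2 : ℝ) : ℂ) = cc * a ^ 2 := by
    push_cast
    rw [hdiv]
  rw [hc2]
  have hu0 := fu0
  have e0 : ∀ j : Fin 3, cov (S.fld y) j (S.tri et eps u f ch y) x 0 =
      -I * fderiv ℝ (fun x => cexp (-(I * (S.Th et eps y (x 2) : ℂ))) *
      ((ch x * gs et x : ℝ) : ℂ) * S.pol et u y x) x (Pi.single j 1) +
        ((S.fld y x j : ℝ) : ℂ) * (E * (cc * G) * S.pol et u y x) := by
    intro j
    rw [← tu', ← tu]
    rfl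
  have e1 : ∀ j : Fin 3, cov (S.fld y) j (S.tri et eps u f ch y) x 1 =
      -I * fderiv ℝ (fun x => cexp (-(I * (S.Th et eps y (x 2) : ℂ))) *
      ((ch x * gs et x : ℝ) : ℂ) * S.pol et f y x) x (Pi.single j 1) +
        ((S.fld y x j : ℝ) : ℂ) * (E * (cc * G) * S.pol et f y x) := by
    intro j
    rw [← tf', ← tf]
    rfl
  have rs0 : (((cc * a ^ 2) • ![S.pol et (D1 M eps u f) y x, S.pol et (D2 M eps u f) y x] +
      cc • sl (fun c => ∑ i, y i * S.rm M i x c) ![S.pol et u y x, S.pol et f y x] +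
      ∑ j, (-I * (pd j ch x : ℂ)) • sg j ![S.pol et u y x, S.pol et f y x] : S2) 0) =
      cc * a ^ 2 * S.pol et (D1 M eps u f) y x +
      cc * (R0 * S.pol et f y x + R1 * (-I * S.pol et f y x) + R2 * S.pol et u y x) +
      ((-I * (pd 0 ch x : ℂ)) * S.pol et f y x + (-I * (pd 1 ch x : ℂ)) * (-I * S.pol et f y x) +
        (-I * (pd 2 ch x : ℂ)) * S.pol et u y x) := by
    rw [sl_apply]
    simp only [Fin.sum_univ_three, sg_zero, sg_one, sg_two, Pi.add_apply, Pi.smul_apply, smul_eq_mul,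
      Matrix.cons_val_zero, Matrix.cons_val_one]
    rw [hR0, hR1, hR2]
  have rs1 : (((cc * a ^ 2) • ![S.pol et (D1 M eps u f) y x, S.pol et (D2 M eps u f) y x] +
      cc • sl (fun c => ∑ i, y i * S.rm M i x c) ![S.pol et u y x, S.pol et f y x] +
      ∑ j, (-I * (pd j ch x : ℂ)) • sg j ![S.pol et u y x, S.pol et f y x] : S2) 1) =
      cc * a ^ 2 * S.pol et (D2 M eps u f) y x +
      cc * (R0 * S.pol et u y x + R1 * (I * S.pol et u y x) + R2 * (-S.pol et f y x)) +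
      ((-I * (pd 0 ch x : ℂ)) * S.pol et u y x + (-I * (pd 1 ch x : ℂ)) * (I * S.pol et u y x) +
        (-I * (pd 2 ch x : ℂ)) * (-S.pol et f y x)) := by
    rw [sl_apply]
    simp only [Fin.sum_univ_three, sg_zero, sg_one, sg_two, Pi.add_apply, Pi.smul_apply, smul_eq_mul,
      Matrix.cons_val_zero, Matrix.cons_val_one]
    rw [hR0, hR1, hR2]
  ext s
  fin_cases s
  · have h0 := dtr_alg0 E G cc (x 0) (x 1) a et (S.pol et (dz f) y x) (S.pol et (db f) y x)
      (S.pol et f y x) (S.pol et u y x) (S.pol et (dt u) y x) (S.pol et eps y x) T0 T1 T2 R0 R1 R2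
      (pd 0 ch x) (pd 1 ch x) (pd 2 ch x) ha
    have l0 : dop (S.fld y) (S.tri et eps u f ch y) x 0 = cov (S.fld y) 0 (S.tri et eps u f ch y) x 1 +
        -I * cov (S.fld y) 1 (S.tri et eps u f ch y) x 1 + cov (S.fld y) 2 (S.tri et eps u f ch y) x 0 := by
      rw [dop, Fin.sum_univ_three, sg_zero, sg_one, sg_two]
      rfl
    show dop (S.fld y) (S.tri et eps u f ch y) x 0 = (E * G) • (((cc * a ^ 2) • ![S.pol et (D1 M eps u f) y x, S.pol et (D2 M eps u f) y x] +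
      cc • sl (fun c => ∑ i, y i * S.rm M i x c) ![S.pol et u y x, S.pol et f y x] +
      ∑ j, (-I * (pd j ch x : ℂ)) • sg j ![S.pol et u y x, S.pol et f y x] : S2) 0)
    rw [l0, rs0, e1 0, e1 1, e0 2, ff0, ff1, fu2, hV0, hV1, hV2, hD1, smul_eq_mul]
    linear_combination h0
  · have h1 := dtr_alg1 E G cc (x 0) (x 1) a et (S.pol et (dz u) y x) (S.pol et (db u) y x)
      (S.pol et f y x) (S.pol et u y x) (S.pol et (dt f) y x) (S.pol et eps y x) T0 T1 T2 R0 R1 R2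
      (pd 0 ch x) (pd 1 ch x) (pd 2 ch x) ha
    have l1 : dop (S.fld y) (S.tri et eps u f ch y) x 1 = cov (S.fld y) 0 (S.tri et eps u f ch y) x 0 +
        I * cov (S.fld y) 1 (S.tri et eps u f ch y) x 0 + -cov (S.fld y) 2 (S.tri et eps u f ch y) x 1 := by
      rw [dop, Fin.sum_univ_three, sg_zero, sg_one, sg_two]
      rfl
    show dop (S.fld y) (S.tri et eps u f ch y) x 1 = (E * G) • (((cc * a ^ 2) • ![S.pol et (D1 M eps u f) y x, S.pol et (D2 M eps u f) y x] +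
      cc • sl (fun c => ∑ i, y i * S.rm M i x c) ![S.pol et u y x, S.pol et f y x] +
      ∑ j, (-I * (pd j ch x : ℂ)) • sg j ![S.pol et u y x, S.pol et f y x] : S2) 1)
    rw [l1, rs1, e0 0, e0 1, e1 2, fu0, fu1, ff2, hV0, hV1, hV2, hD2, smul_eq_mul]
    linear_combination h1

end Pool.Agent.FTU.H72
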