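import Pool.Agent.FTU.Stmts
import Pool.Agent.Helper49_Pauli.Main

/-! # FTU, row FIN -/

set_option autoImplicit false

open MeasureTheory Complex ProbabilityTheory

namespace Pool.Agent.FTU.H72

open Pool.Agent.Helper49_Pauli
open Pool.Agent.MBX

theorem fin (hPAR : ParStmt) : FinStmt := by
  intro eps heps alpha halpha
  obtain ⟨C, cut0, hC, hcut0, h⟩ := hPAR eps alpha heps halpha
  obtain ⟨C', hC', h'⟩ := upper alpha halpha
  refine ⟨max C (C' * cut0 ^ ((46 / 31 : ℝ))), lt_max_of_lt_left hC, fun cut L hcut hL P D _ _ F => ?_⟩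
  refine ⟨(h' cut L hcut hL P D F).1, ?_⟩
  have hp : 0 < cut := by linarith
  rcases le_total cut0 cut with h1 | h1
  · refine (h cut L h1 hL P D F).trans ?_
    exact mul_le_mul_of_nonneg_right (le_max_left _ _) (Real.rpow_nonneg hp.le _)
  · refine (h' cut L hcut hL P D F).2.trans ?_
    have h2 : cut ^ ((46 / 31 : ℝ)) ≤ cut0 ^ ((46 / 31 : ℝ)) :=
      Real.rpow_le_rpow hp.le h1 (by norm_num)
    have h3 : (1 : ℝ) ≤ cut ^ (4 / 3 + eps) := Real.one_le_rpow hcut (by linarith)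
    calc C' * cut ^ ((46 / 31 : ℝ)) ≤ C' * cut0 ^ ((46 / 31 : ℝ)) := by gcongr
      _ ≤ max C (C' * cut0 ^ ((46 / 31 : ℝ))) := le_max_right _ _
      _ = max C (C' * cut0 ^ ((46 / 31 : ℝ))) * 1 := (mul_one _).symm
      _ ≤ _ := by
        apply mul_le_mul_of_nonneg_left h3
        exact le_trans hC.le (le_max_left _ _)

end Pool.Agent.FTU.H72
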