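import Pool.Agent.Helper49_Pauli.SelfEn

/-! # FTU: from the upper bound to the failure of lower bounds -/

set_option autoImplicit false

open MeasureTheory Complex

namespace Pool.Agent.FTU.H72

open Pool.Agent.Helper49_Pauli

/-- An upper bound of order `cut^s` excludes lower bounds of order `cut^gam`, `gam > s`, even in the
limit of large boxes. -/
theorem noLower (hFR : FockRepStatement) (hPol : PolStatement) {s gam : ℝ} (hs : s < gam)
    (hU : UpperStatement s) (alpha : ℝ) (halpha : 0 < alpha) :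
    ¬ ∃ c : ℝ, 0 < c ∧ ∃ cut₀ : ℝ, ∀ cut : ℝ, cut₀ ≤ cut → ∃ L₀ : ℝ, ∀ L : ℝ, L₀ ≤ L →
      ∀ (P : Polarization L) (D : Type) [NormedAddCommGroup D] [InnerProductSpace ℂ D]
        (F : Bosons (Mode cut L) D), F.Cyclic →
        c * cut ^ gam ≤ selfEnergy alpha F P := by
  rintro ⟨c, hc, cut₀, h⟩
  obtain ⟨C, hC, hU⟩ := hU alpha halpha
  obtain ⟨cut, h1, h2, h3⟩ : ∃ cut : ℝ, cut₀ ≤ cut ∧ 1 ≤ cut ∧ C * cut ^ s < c * cut ^ gam := by
    have ht : Filter.Tendsto (fun x : ℝ => x ^ (gam - s)) Filter.atTop Filter.atTop :=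
      tendsto_rpow_atTop (by linarith)
    have he := ht.eventually_gt_atTop (C / c)
    obtain ⟨cut, h1, h2⟩ := (he.and (Filter.eventually_ge_atTop (max cut₀ 1))).exists
    refine ⟨cut, le_trans (le_max_left _ _) h2, le_trans (le_max_right _ _) h2, ?_⟩
    have hpos : 0 < cut := lt_of_lt_of_le one_pos (le_trans (le_max_right _ _) h2)
    have e : cut ^ gam = cut ^ s * cut ^ (gam - s) := by
      rw [← Real.rpow_add hpos]
      congr 1
      ring
    rw [e]
    have h5 : C < c * cut ^ (gam - s) := by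
      rw [div_lt_iff₀ hc] at h1
      linarith
    have h6 : 0 < cut ^ s := Real.rpow_pos_of_pos hpos _
    calc C * cut ^ s < (c * cut ^ (gam - s)) * cut ^ s := by gcongr
      _ = _ := by ring
  obtain ⟨L₀, hL₀⟩ := h cut h1
  obtain ⟨P⟩ := hPol (max L₀ 1) (lt_of_lt_of_le one_pos (le_max_right _ _))
  obtain ⟨D, i1, i2, F, hF⟩ := hFR (Mode cut (max L₀ 1))
  have h7 := hL₀ (max L₀ 1) (le_max_left _ _) P D F hF
  have h8 := (hU cut (max L₀ 1) h2 (le_max_right _ _) P D F).2
  linarith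

end Pool.Agent.FTU.H72
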