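import Pool.Agent.Helper77_FTU.CJA
import Pool.Agent.Helper74_FTU.CJB
import Pool.Agent.Helper13_FTU.SLV
import Pool.Agent.Helper75_FTU.FRM
import Pool.Agent.Helper5_FTU.GFN
import Pool.Agent.Helper37_FTU.SYM
import Pool.Agent.Helper37_FTU.NRM
import Pool.Agent.Helper1_FTU.ALG
import Pool.Agent.Helper19_FTU.EVR
import Pool.Agent.Helper19_FTU.EVX
import Pool.Agent.Helper16_FTU.EVY
import Pool.Agent.Helper3_FTU.EVT
import Pool.Agent.Helper34_FTU.POB
import Pool.Agent.Helper97_FTU.RMB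
import Pool.Agent.Helper73_FTU.PSA
import Pool.Agent.Helper88_FTU.TCD
import Pool.Agent.Helper50_FTU.NFT
import Pool.Agent.Helper81_FTU.TRC
import Pool.Agent.Helper51_FTU.RVS
import Pool.Agent.Helper9_FTU.EGC
import Pool.Agent.Helper7_FTU.CPL
import Pool.Agent.Helper80_FTU.PRJ
import Pool.Agent.Helper6_FTU.SMX
import Pool.Agent.Helper76_FTU.DE1
import Pool.Agent.Helper36_FTU.DEN
import Pool.Agent.Helper2_FTU.SHF
import Pool.Agent.Helper23_FTU.SEL
import Pool.Agent.Helper2_FTU.SCA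
import Pool.Agent.Helper47_FTU.GAM
import Pool.Agent.Helper52_FTU.JMM
import Pool.Agent.Helper12_FTU.DTD
import Pool.Agent.Helper72_FTU.DTR
import Pool.Agent.Helper62_FTU.DRP
import Pool.Agent.Helper98_FTU.DRX
import Pool.Agent.Helper12_FTU.BSU
import Pool.Agent.Helper66_FTU.FLP
import Pool.Agent.Helper30_FTU.FLX
import Pool.Agent.Helper30_FTU.EXN
import Pool.Agent.Helper60_FTU.XIN
import Pool.Agent.Helper99_FTU.COR
import Pool.Agent.Helper46_FTU.LAT
import Pool.Agent.Helper95_FTU.BSL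
import Pool.Agent.Helper35_FTU.GOD
import Pool.Agent.Helper73_FTU.TRG
import Pool.Agent.Helper35_FTU.TPM
import Pool.Agent.Helper89_FTU.DKP
import Pool.Agent.Helper60_FTU.PFT
import Pool.Agent.Helper26_FTU.PFD
import Pool.Agent.Helper42_FTU.PRO
import Pool.Agent.Helper45_FTU.PR3
import Pool.Agent.Helper66_FTU.PSI
import Pool.Agent.Helper67_FTU.CUR
import Pool.Agent.Helper8_FTU.JFD
import Pool.Agent.Helper64_FTU.BGA
import Pool.Agent.Helper26_FTU.BMP
import Pool.Agent.Helper81_FTU.PAR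
import Pool.Agent.Helper72_FTU.FIN
import Pool.Agent.Helper72_FTU.PAR2

/-! # FTU: composition of all rows -/

set_option autoImplicit false

namespace Pool.Agent.FTU.H72

open Pool.Agent.FTU
open Pool.Agent.Helper49_Pauli

/-- The seven statements used by the last step. -/
theorem rows : AlgStmt ∧ SelStmt ∧ ScaStmt ∧ CorStmt ∧ GodStmt ∧ BgaStmt ∧ BmpStmt := by
  have cja' : CjaStmt := Pool.Agent.FTU.H77.cja
  have cjb' : CjbStmt := Pool.Agent.FTU.H74.cjb
  have slv' : SlvStmt := Pool.Agent.FTU.H13.slv cjb'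
  have frm' : FrmStmt := Pool.Agent.FTU.H75.frm cjb' slv'
  have gfn' : GfnStmt := Pool.Agent.FTU.H5.gfn cja' cjb'
  have sym' : SymStmt := Pool.Agent.FTU.H37.sym cja' cjb'
  have nrm' : NrmStmt := Pool.Agent.FTU.H37.nrm cja' cjb'
  have alg' : AlgStmt := Pool.Agent.FTU.H1.alg cja' cjb' frm' gfn' sym' nrm'
  have evr' : EvrStmt := Pool.Agent.FTU.H19.evr cja'
  have evx' : EvxStmt := Pool.Agent.FTU.H19.evx
  have evy' : EvyStmt := Pool.Agent.FTU.H16.evy
  have evt' : EvtStmt := Pool.Agent.FTU.H3.evt evx' evy'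
  have pob' : PobStmt := Pool.Agent.FTU.H34.pob
  have rmb' : RmbStmt := Pool.Agent.FTU.H97.rmb
  have psa' : PsaStmt := Pool.Agent.FTU.H73.psa
  have tcd' : TcdStmt := Pool.Agent.FTU.H88.tcd psa'
  have nft' : NftStmt := Pool.Agent.FTU.H50.nft tcd'
  have trc' : TrcStmt := Pool.Agent.FTU.H81.trc evx' psa'
  have rvs' : RvsStmt := Pool.Agent.FTU.H51.rvs
  have egc' : EgcStmt := Pool.Agent.FTU.H9.egc
  have cpl' : CplStmt := Pool.Agent.FTU.H7.cpl egc'
  have prj' : PrjStmt := Pool.Agent.FTU.H80.prj egc' cpl'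
  have smx' : SmxStmt := Pool.Agent.FTU.H6.smx psa' tcd' egc'
  have de1' : De1Stmt := Pool.Agent.FTU.H76.de1 tcd' egc' prj' smx'
  have den' : DenStmt := Pool.Agent.FTU.H36.den de1'
  have shf' : ShfStmt := Pool.Agent.FTU.H2.shf tcd' nft'
  have sel' : SelStmt := Pool.Agent.FTU.H23.sel rvs' den' shf'
  have sca' : ScaStmt := Pool.Agent.FTU.H2.sca tcd'
  have gam' : GamStmt := Pool.Agent.FTU.H47.gam
  have jmm' : JmmStmt := Pool.Agent.FTU.H52.jmm gam'
  have dtd' : DtdStmt := Pool.Agent.FTU.H12.dtd evr' evx' evt'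
  have dtr' : DtrStmt := Pool.Agent.FTU.H72.dtr evr' dtd'
  have drp' : DrpStmt := Pool.Agent.FTU.H62.drp dtr'
  have drx' : DrxStmt := Pool.Agent.FTU.H98.drx rmb' pob' jmm' drp'
  have bsu' : BsuStmt := Pool.Agent.FTU.H12.bsu
  have flp' : FlpStmt := Pool.Agent.FTU.H66F.flp evy' evt' bsu'
  have flx' : FlxStmt := Pool.Agent.FTU.H30F.flx pob' jmm' flp'
  have exn' : ExnStmt := Pool.Agent.FTU.H30.exn pob' jmm'
  have xin' : XinStmt := Pool.Agent.FTU.H60.xin
  have cor' : CorStmt := Pool.Agent.FTU.H99.cor tcd' nft' trc' drx' flx' exn' xin'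
  have lat' : LatStmt := Pool.Agent.FTU.H46.lat
  have bsl' : BslStmt := Pool.Agent.FTU.H95.bsl
  have god' : GodStmt := Pool.Agent.FTU.H35.god lat' bsl'
  have trg' : TrgStmt := Pool.Agent.FTU.H73.trg
  have tpm' : TpmStmt := Pool.Agent.FTU.H35.tpm
  have dkp' : DkpStmt := Pool.Agent.FTU.H89.dkp
  have pft' : PftStmt := Pool.Agent.FTU.H60.pft tpm' dkp'
  have pfd' : PfdStmt := Pool.Agent.FTU.H26.pfd dkp'
  have pro' : ProStmt := Pool.Agent.FTU.H42.pro pft' pfd' tpm'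
  have pr3' : Pr3Stmt := Pool.Agent.FTU.H45.pr3
  have psi' : PsiStmt := Pool.Agent.FTU.H66.psi pr3'
  have cur' : CurStmt := Pool.Agent.FTU.H67.cur
  have jfd' : JfdStmt := Pool.Agent.FTU.H8.jfd
  have bga' : BgaStmt := Pool.Agent.FTU.H64.bga trg' jfd' pro' psi' cur'
  have bmp' : BmpStmt := Pool.Agent.FTU.H26.bmp
  exact ⟨alg', sel', sca', cor', god', bga', bmp'⟩

/-- The final statement of the chain, with no hypothesis. -/
theorem main : FinStmt :=
  fin (Pool.Agent.FTU.H81.par rows.1 rows.2.1 rows.2.2.1 rows.2.2.2.1 rows.2.2.2.2.1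
    rows.2.2.2.2.2.1 rows.2.2.2.2.2.2)

/-- The upper bound for large cutoffs and all boxes of side at least `cut^(-2/3 + eps)`. -/
theorem main2 (eps alpha : ℝ) (heps : 0 < eps) (halpha : 0 < alpha) :
    ∃ C cut0 : ℝ, 0 < C ∧ 1 ≤ cut0 ∧ ∀ cut L : ℝ, cut0 ≤ cut → cut ^ (-(2 / 3) + eps) ≤ L →
    ∀ (P : Polarization L) (D : Type) [NormedAddCommGroup D] [InnerProductSpace ℂ D]
      (F : Bosons (Mode cut L) D),
      0 ≤ selfEnergy alpha F P ∧ selfEnergy alpha F P ≤ C * cut ^ (4 / 3 + eps) := by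
  obtain ⟨C, cut0, h1, h2, h3⟩ := par2 rows.1 rows.2.1 rows.2.2.1 rows.2.2.2.1 rows.2.2.2.2.1
    rows.2.2.2.2.2.1 rows.2.2.2.2.2.2 eps alpha heps halpha
  refine ⟨C, cut0, h1, h2, fun cut L hcut hL P D _ _ F => ⟨?_, h3 cut L hcut hL P D F⟩⟩
  have hc : 0 < cut := by linarith
  exact selfEnergy_nonneg symm ((Real.rpow_pos_of_pos hc _).trans_le hL) P halpha.le F

end Pool.Agent.FTU.H72
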